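import Pool.Agent.Helper20.DER.Ext
import Pool.Agent.Helper21.TS.Line
import Mathlib.RingTheory.Trace.Basic
import Mathlib.RingTheory.Norm.Basic

/-!
# CV: the trace of a logarithmic derivative (C4a1)
-/

set_option autoImplicit false

namespace Pool.Agent.CV

/-- a derivation over the integers of a field of characteristic zero, as a derivation over the rationals -/
private theorem rat_der_h61 {K : Type*} [Field K] [CharZero K] (D₀ : Derivation ℤ K K) :
    ∃ D₁ : Derivation ℚ K K, ∀ x, D₁ x = D₀ x := by
  refine ⟨Derivation.mk' (AddMonoidHom.toRatLinearMap (D₀ : K →+ K)) ?_, fun x => rfl⟩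
  intro a b
  exact D₀.leibniz a b

/-- an extension of a derivation commutes with the embeddings over the base field -/
private theorem comm_h61 {K R Om : Type*} [Field K] [CharZero K] [Field R] [Field Om] [Algebra K R] [Algebra K Om]
    [Algebra ℚ Om] [Algebra.IsAlgebraic K R] (D₀ : Derivation ℤ K K) (D : Derivation ℤ R R)
    (hD : ∀ x : K, D (algebraMap K R x) = algebraMap K R (D₀ x)) (D' : Derivation ℚ Om Om)
    (hD' : ∀ x : K, D' (algebraMap K Om x) = algebraMap K Om (D₀ x)) (σ : R →ₐ[K] Om) (x : R) :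
    D' (σ x) = σ (D x) := by
  let : Module R Om := Module.compHom Om σ.toRingHom
  have hsm : ∀ (r : R) (z : Om), r • z = σ r * z := fun _ _ => rfl
  have hst : IsScalarTower K R Om := ⟨fun a r z => by rw [hsm, hsm, map_smul, smul_mul_assoc]⟩
  let f : R →ₗ[K] Om :=
    { toFun := fun x => D' (σ x) - σ (D x)
      map_add' := fun x y => by
        simp only [map_add]; ring
      map_smul' := fun c x => by
        simp only [RingHom.id_apply]
        rw [Algebra.smul_def c x, map_mul, D'.leibniz, D.leibniz, map_add, AlgHom.commutes, hD', hD, smul_eq_mul,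
          smul_eq_mul, smul_eq_mul, smul_eq_mul, map_mul, map_mul, AlgHom.commutes, AlgHom.commutes, Algebra.smul_def]
        ring }
  let δ : Derivation K R Om := Derivation.mk' f (by
    intro a b
    change D' (σ (a * b)) - σ (D (a * b)) = a • (D' (σ b) - σ (D b)) + b • (D' (σ a) - σ (D a))
    rw [hsm, hsm, map_mul, D'.leibniz, D.leibniz, map_add, smul_eq_mul, smul_eq_mul, smul_eq_mul, smul_eq_mul,
      map_mul, map_mul]
    ring)
  have h := Pool.Agent.Helper21.TS.der_zero_of_algebraic (k₀ := K) δ ∅ (fun s hs => absurd hs (Set.notMem_empty s)) x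
    (IsAlgebraic.tower_top (K := K) _ (Algebra.IsAlgebraic.isAlgebraic x))
  exact sub_eq_zero.1 h

theorem trace_log {K R : Type*} [Field K] [CharZero K] [Field R] [Algebra K R] [FiniteDimensional K R] (D₀ : Derivation ℤ K K)
    (D : Derivation ℤ R R) (hD : ∀ x : K, D (algebraMap K R x) = algebraMap K R (D₀ x)) (u : R) (hu : u ≠ 0) :
    Algebra.trace K R (D u / u) = D₀ (Algebra.norm K u) / Algebra.norm K u := by
  classical
  obtain ⟨D₁, hD₁⟩ := rat_der_h61 D₀
  obtain ⟨D', hD'⟩ := Pool.Agent.Helper20.DER.extend_derivation (k0 := ℚ) (F := AlgebraicClosure K) D₁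
  have hD'' : ∀ x : K, D' (algebraMap K (AlgebraicClosure K) x) = algebraMap K (AlgebraicClosure K) (D₀ x) := by
    intro x
    rw [hD', hD₁]
  apply (algebraMap K (AlgebraicClosure K)).injective
  rw [trace_eq_sum_embeddings (AlgebraicClosure K), map_div₀, ← hD'', Algebra.norm_eq_prod_embeddings]
  have hne : ∀ σ : R →ₐ[K] AlgebraicClosure K, σ u ≠ 0 := fun σ => by
    rw [map_ne_zero]
    exact hu
  have hlog : ∀ s : Finset (R →ₐ[K] AlgebraicClosure K),
      D' (∏ σ ∈ s, σ u) / (∏ σ ∈ s, σ u) = ∑ σ ∈ s, D' (σ u) / σ u := by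
    intro s
    induction s using Finset.induction_on with
    | empty => simp
    | insert a s ha ih =>
      have h1 : (∏ σ ∈ s, σ u) ≠ 0 := Finset.prod_ne_zero_iff.2 fun σ _ => hne σ
      rw [Finset.prod_insert ha, Finset.sum_insert ha, ← ih, D'.leibniz, smul_eq_mul, smul_eq_mul]
      field_simp [hne a, h1]
      ring
  rw [hlog]
  refine Finset.sum_congr rfl fun σ _ => ?_
  have h := comm_h61 D₀ D hD D' hD'' σ u
  rw [map_div₀, h]

end Pool.Agent.CV
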