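import Pool.Agent.Helper42.CV.Defs
import Pool.Agent.Helper21.TS.Line

/-!
# CV: multiplicative relations between generic linear forms on a curve, all dimensions (C2)
-/

set_option autoImplicit false

namespace Pool.Agent.CV

open Module Pool.Agent.TRI
open Pool.Agent.Helper21.TS (Ext1)

/-- a right inverse of an integral matrix with independent rows, over a field of characteristic zero -/
private theorem rinv_h61 {F : Type*} [Field F] [CharZero F] {ρ q : ℕ} (a : Fin ρ → Fin q → ℤ) (ha : LinearIndependent ℤ a) :
    ∃ B : Fin q → Fin ρ → F, ∀ s s', ∑ i, (a s' i : F) * B i s = if s = s' then 1 else 0 := by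
  classical
  -- over the rational numbers
  let ι : (Fin q → ℤ) →ₗ[ℤ] (Fin q → ℚ) :=
    { toFun := fun v i => (v i : ℚ)
      map_add' := fun v w => by
        funext i
        simp
      map_smul' := fun c v => by
        funext i
        simp }
  have hι : LinearMap.ker ι = ⊥ := by
    rw [LinearMap.ker_eq_bot']
    intro v hv
    funext i
    have h := congrFun hv i
    change (v i : ℚ) = 0 at h
    exact_mod_cast h
  have h1 : LinearIndependent ℤ (ι ∘ a) := ha.map' ι hι
  have h2 : LinearIndependent ℚ (ι ∘ a) := (LinearIndependent.iff_fractionRing ℤ ℚ).1 h1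
  obtain ⟨g, hg⟩ := (Fintype.linearCombination ℚ (ι ∘ a)).exists_leftInverse_of_injective
    (LinearMap.ker_eq_bot.2 h2.fintypeLinearCombination_injective)
  have hgs : ∀ s', g (ι (a s')) = Pi.single s' 1 := by
    intro s'
    have h3 := LinearMap.congr_fun hg (Pi.single s' 1)
    rw [LinearMap.comp_apply, Fintype.linearCombination_apply_single, one_smul, LinearMap.id_apply] at h3
    exact h3
  have hsum : ∀ s s', ∑ i, (a s' i : ℚ) * g (Pi.single i 1) s = if s = s' then 1 else 0 := by
    intro s s'
    have h4 : ι (a s') = ∑ i, (a s' i : ℚ) • (Pi.single i (1 : ℚ) : Fin q → ℚ) := by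
      funext i
      rw [Finset.sum_apply, Finset.sum_eq_single i]
      · change ((a s' i : ℤ) : ℚ) = _
        simp
      · intro j _ hj
        simp [hj.symm]
      · intro h
        exact absurd (Finset.mem_univ _) h
    have h5 := congrFun (hgs s') s
    rw [h4, map_sum, Finset.sum_apply] at h5
    simp only [map_smul, Pi.smul_apply, smul_eq_mul] at h5
    rw [h5, Pi.single_apply]
  refine ⟨fun i s => ((g (Pi.single i 1) s : ℚ) : F), fun s s' => ?_⟩
  have h6 := congrArg (fun z : ℚ => (z : F)) (hsum s s')
  simp only [Rat.cast_sum, Rat.cast_mul, Rat.cast_intCast] at h6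
  rw [h6]
  split_ifs <;> simp

private theorem der_sum_h61 {k₀ E F γ : Type*} [Field k₀] [Field E] [Field F] [Algebra k₀ E] [Algebra k₀ F] [Algebra E F]
    [IsScalarTower k₀ E F] (G : γ → Derivation k₀ E F) (u : γ → F) (s : Finset γ) :
    ∃ D : Derivation k₀ E F, ∀ x, D x = ∑ g ∈ s, u g * G g x := by
  classical
  induction s using Finset.induction_on with
  | empty => exact ⟨0, fun x => by rw [Finset.sum_empty]; rfl⟩
  | insert g s hg ih =>
    obtain ⟨D, hD⟩ := ih
    refine ⟨u g • G g + D, fun x => ?_⟩
    rw [Finset.sum_insert hg, ← hD]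
    rfl

/-- the space of the values of the derivations has dimension at most the transcendence degree -/
private theorem rank_der_h61 {k₀ F : Type*} [Field k₀] [CharZero k₀] [Field F] [Algebra k₀ F] {N n : ℕ} (y : Fin (N + 1) → F)
    (htr : Algebra.trdeg k₀ (IntermediateField.adjoin k₀ (Set.range y)) ≤ n) {γ : Type*} [Fintype γ]
    (G : γ → Derivation k₀ F F) : finrank F (Submodule.span F (Set.range fun g => fun c => G g (y c))) ≤ n := by
  classical
  obtain ⟨E, hE⟩ : ∃ E, E = IntermediateField.adjoin k₀ (Set.range y) := ⟨_, rfl⟩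
  rw [← hE] at htr
  obtain ⟨ι, t, ht⟩ := exists_isTranscendenceBasis' (R := k₀) E
  have hcard := ht.cardinalMk_eq_trdeg
  have hle : Cardinal.mk ι ≤ n := hcard.le.trans htr
  have hfin : Finite ι := by
    rw [← Cardinal.lt_aleph0_iff_finite]
    exact lt_of_le_of_lt hle (Cardinal.natCast_lt_aleph0 (n := n))
  have := Fintype.ofFinite ι
  have hcard2 : Fintype.card ι ≤ n := by
    rw [Cardinal.mk_fintype] at hle
    exact_mod_cast hle
  let φ := Fintype.linearCombination F (fun g => fun c => G g (y c))
  let ψ := Fintype.linearCombination F (fun g => fun i : ι => G g (t i : F))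
  have hφ : ∀ u c, φ u c = ∑ g, u g * G g (y c) := by
    intro u c
    rw [Fintype.linearCombination_apply, Finset.sum_apply]
    rfl
  have hψ : ∀ u i, ψ u i = ∑ g, u g * G g (t i : F) := by
    intro u i
    rw [Fintype.linearCombination_apply, Finset.sum_apply]
    rfl
  have hker : LinearMap.ker ψ ≤ LinearMap.ker φ := by
    intro u hu
    rw [LinearMap.mem_ker] at hu ⊢
    funext c
    have hyc : y c ∈ E := by
      rw [hE]
      exact IntermediateField.subset_adjoin _ _ (Set.mem_range_self c)
    obtain ⟨D', hD''⟩ := der_sum_h61 (fun g => (G g).compAlgebraMap E) u Finset.univ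
    have hD' : ∀ x : E, D' x = ∑ g, u g * G g (x : F) := hD''
    have h2 := Pool.Agent.Helper21.TS.der_zero_of_algebraic D' (Set.range t) (by
      rintro _ ⟨i, rfl⟩
      rw [hD', ← hψ, hu]
      rfl) ⟨y c, hyc⟩ (ht.isAlgebraic_field.isAlgebraic _)
    rw [hD'] at h2
    rw [hφ]
    exact h2
  have h1 := LinearMap.finrank_range_add_finrank_ker φ
  have h2 := LinearMap.finrank_range_add_finrank_ker ψ
  have h3 := Submodule.finrank_mono hker
  have h4 : finrank F (LinearMap.range ψ) ≤ n := (Submodule.finrank_le _).trans (by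
    rw [Module.finrank_fintype_fun_eq_card]
    exact hcard2)
  rw [← Fintype.range_linearCombination]
  change finrank F (LinearMap.range φ) ≤ n
  omega

theorem core {k₀ M F : Type*} [Field k₀] [CharZero k₀] [Field M] [Field F] [Algebra k₀ M] [Algebra k₀ F] [Algebra M F]
    [IsScalarTower k₀ M F] (hext : Ext1 k₀ M F) {N q n m ρ : ℕ} (l : Fin q → Fin (N + 1) → M)
    (hl : ∀ p : Fin q × Fin (N + 1), ∃ D : Derivation k₀ M M, ∀ p' : Fin q × Fin (N + 1), D (l p'.1 p'.2) = if p' = p then 1 else 0)
    (y : Fin (N + 1) → F) (htr : Algebra.trdeg k₀ (IntermediateField.adjoin k₀ (Set.range y)) ≤ n)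
    (η : Fin m → Derivation M F F) (hη : LinearIndependent F fun b => fun c => η b (y c)) (hly : ∀ i, lv (l i) y ≠ 0)
    (a : Fin ρ → Fin q → ℤ) (ha : LinearIndependent ℤ a) (hw : ∀ s, ∃ τ : M, wv l y (a s) = algebraMap M F τ) :
    (ρ + m) * finrank M (Submodule.span M (Set.range y)) ≤ ρ + n * finrank M (Submodule.span M (Set.range y)) := by
  classical
  have hF0 : CharZero F := charZero_of_injective_algebraMap (algebraMap k₀ F).injective
  obtain ⟨B, hB⟩ := rinv_h61 (F := F) a ha
  choose τ hτ using hw
  choose D₀ hD₀ using hl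
  choose D hD using fun p => hext (D₀ p)
  have hτ0 : ∀ s, algebraMap M F (τ s) ≠ 0 := by
    intro s
    rw [← hτ s, wv]
    exact Finset.prod_ne_zero_iff.2 fun i _ => zpow_ne_zero _ (hly i)
  have hlv : ∀ (i : Fin q) (v : Fin (N + 1) → F), lv (l i) v = ∑ c, algebraMap M F (l i c) * v c := fun i v => rfl
  -- the functional
  let θ : (Fin (N + 1) → F) →ₗ[F] (Fin ρ → F) :=
    { toFun := fun v s => ∑ i, (a s i : F) * (lv (l i) v / lv (l i) y)
      map_add' := fun v w => by
        funext s
        simp only [hlv, Pi.add_apply, mul_add, Finset.sum_add_distrib, add_div]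
      map_smul' := fun c v => by
        funext s
        simp only [hlv, Pi.smul_apply, smul_eq_mul, RingHom.id_apply, Finset.mul_sum, Finset.sum_div]
        refine Finset.sum_congr rfl fun i _ => Finset.sum_congr rfl fun j _ => ?_
        ring }
  have hθ : ∀ v s, θ v s = ∑ i, (a s i : F) * (lv (l i) v / lv (l i) y) := fun _ _ => rfl
  have hLd : ∀ (Δ : Derivation k₀ F F) i, Δ (lv (l i) y) =
      ∑ c, Δ (algebraMap M F (l i c)) * y c + lv (l i) fun c => Δ (y c) := by
    intro Δ i
    rw [hlv, hlv]
    simp only [map_sum, Δ.leibniz, smul_eq_mul]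
    rw [← Finset.sum_add_distrib]
    refine Finset.sum_congr rfl fun c _ => ?_
    ring
  have hrel : ∀ s (Δ : Derivation k₀ F F), Δ (algebraMap M F (τ s)) = algebraMap M F (τ s) *
      (∑ i, (a s i : F) * ((∑ c, Δ (algebraMap M F (l i c)) * y c) / lv (l i) y) + θ (fun c => Δ (y c)) s) := by
    intro s Δ
    rw [← hτ s, wv, Pool.Agent.Helper21.TS.log_der Finset.univ Δ (fun i => lv (l i) y) hly (a s), hθ, ← Finset.sum_add_distrib]
    congr 1
    refine Finset.sum_congr rfl fun i _ => ?_
    rw [hLd]
    ring
  have hθη : ∀ b, θ (fun c => η b (y c)) = 0 := by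
    intro b
    funext s
    have h1 := hrel s ((η b).restrictScalars k₀)
    have h2 : ∀ m : M, ((η b).restrictScalars k₀) (algebraMap M F m) = 0 := fun m => (η b).map_algebraMap m
    simp only [h2, zero_mul, Finset.sum_const_zero, zero_div, mul_zero, zero_add] at h1
    exact (mul_eq_zero.1 h1.symm).resolve_left (hτ0 s)
  have hθD : ∀ p : Fin q × Fin (N + 1), ∀ s, θ (fun c => D p (y c)) s =
      algebraMap M F (D₀ p (τ s) / τ s) - a s p.1 * (y p.2 / lv (l p.1) y) := by
    intro p s
    have h1 := hrel s (D p)
    have h2 : ∑ i, (a s i : F) * ((∑ c, D p (algebraMap M F (l i c)) * y c) / lv (l i) y) = a s p.1 * (y p.2 / lv (l p.1) y) := by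
      rw [Finset.sum_eq_single p.1]
      · congr 2
        rw [Finset.sum_eq_single p.2]
        · rw [hD, hD₀ p (p.1, p.2), if_pos rfl, map_one, one_mul]
        · intro c _ hc
          rw [hD, hD₀ p (p.1, c), if_neg (fun h => hc (congrArg Prod.snd h)), map_zero, zero_mul]
        · intro h
          exact absurd (Finset.mem_univ _) h
      · intro i _ hi
        have : ∑ c, D p (algebraMap M F (l i c)) * y c = 0 := by
          refine Finset.sum_eq_zero fun c _ => ?_
          rw [hD, hD₀ p (i, c), if_neg (fun h => hi (congrArg Prod.fst h)), map_zero, zero_mul]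
        rw [this, zero_div, mul_zero]
      · intro h
        exact absurd (Finset.mem_univ _) h
    rw [h2, hD] at h1
    have h3 := hτ0 s
    rw [map_div₀, h1]
    field_simp
    ring
  -- the space `W` of the values
  let G : (Fin q × Fin (N + 1)) ⊕ Fin m → Derivation k₀ F F := Sum.elim D fun b => (η b).restrictScalars k₀
  let v : (Fin q × Fin (N + 1)) ⊕ Fin m → Fin (N + 1) → F := fun g => fun c => G g (y c)
  have hvr : ∀ b, v (Sum.inr b) = fun c => η b (y c) := fun b => rfl
  have hvl : ∀ p, v (Sum.inl p) = fun c => D p (y c) := fun p => rfl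
  obtain ⟨T, hT⟩ : ∃ T, T = Submodule.span F (Set.range v) := ⟨_, rfl⟩
  have hTn : finrank F T ≤ n := by
    rw [hT]
    exact rank_der_h61 y htr G
  have hvT : ∀ g, v g ∈ T := fun g => by
    rw [hT]
    exact Submodule.subset_span (Set.mem_range_self g)
  obtain ⟨W, hW⟩ : ∃ W, W = LinearMap.range (θ.domRestrict T) := ⟨_, rfl⟩
  have hWm : finrank F W + m ≤ n := by
    have h1 := LinearMap.finrank_range_add_finrank_ker (θ.domRestrict T)
    rw [← hW] at h1
    have h2 : m ≤ finrank F (LinearMap.ker (θ.domRestrict T)) := by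
      have h3 : LinearIndependent F fun b : Fin m => (⟨⟨v (Sum.inr b), hvT _⟩, by
          rw [LinearMap.mem_ker]
          exact hθη b⟩ : LinearMap.ker (θ.domRestrict T)) := by
        have h4 : LinearIndependent F (T.subtype ∘ (LinearMap.ker (θ.domRestrict T)).subtype ∘
            fun b : Fin m => (⟨⟨v (Sum.inr b), hvT _⟩, by
              rw [LinearMap.mem_ker]
              exact hθη b⟩ : LinearMap.ker (θ.domRestrict T))) := hη
        exact (h4.of_comp _).of_comp _
      have h5 := h3.fintype_card_le_finrank
      rwa [Fintype.card_fin] at h5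
    omega
  have hDW : ∀ p, θ (fun c => D p (y c)) ∈ W := by
    intro p
    rw [hW]
    exact ⟨⟨v (Sum.inl p), hvT _⟩, rfl⟩
  -- the annihilator
  obtain ⟨K, hK⟩ : ∃ K : Submodule F (Module.Dual F (Fin ρ → F)), K = W.dualAnnihilator := ⟨_, rfl⟩
  have hKd : finrank F W + finrank F K = ρ := by
    rw [hK, Subspace.finrank_add_finrank_dualAnnihilator_eq, Module.finrank_fin_fun]
  let ev : (Fin ρ → F) →ₗ[F] Module.Dual F K := K.subtype.flip
  have hev : ∀ u (f : K), ev u f = (f : Module.Dual F (Fin ρ → F)) u := fun _ _ => rfl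
  let A : Fin q → Fin ρ → F := fun i s => a s i
  let e : Fin q → Module.Dual F K := fun i => ev (A i)
  have hei : ∀ i (f : K), e i f = (f : Module.Dual F (Fin ρ → F)) (A i) := fun _ _ => rfl
  have hdual : finrank F (Module.Dual F K) = finrank F K := Subspace.dual_finrank_eq (K := F) (V := K)
  have hspan : Submodule.span F (Set.range e) = ⊤ := by
    apply Submodule.eq_top_of_finrank_eq
    rw [hdual]
    have h1 := Subspace.finrank_add_finrank_dualCoannihilator_eq (K := F) (V := K) (Submodule.span F (Set.range e))
    have h2 : (Submodule.span F (Set.range e)).dualCoannihilator = ⊥ := by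
      rw [eq_bot_iff]
      intro f hf
      rw [Submodule.mem_bot]
      rw [Submodule.mem_dualCoannihilator] at hf
      have h3 : ∀ i, (f : Module.Dual F (Fin ρ → F)) (A i) = 0 := fun i => hf (e i) (Submodule.subset_span (Set.mem_range_self i))
      apply Subtype.ext
      apply LinearMap.pi_ext'
      intro s
      apply LinearMap.ext_ring
      have h4 : (Pi.single s (1 : F) : Fin ρ → F) = ∑ i, B i s • A i := by
        funext s'
        rw [Finset.sum_apply, Pi.single_apply]
        simp only [Pi.smul_apply, smul_eq_mul, A]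
        rw [Finset.sum_congr rfl fun i _ => mul_comm (B i s) (a s' i : F), hB s s']
        exact if_congr eq_comm rfl rfl
      change (f : Module.Dual F (Fin ρ → F)) (Pi.single s (1 : F)) = 0
      rw [h4, map_sum]
      exact Finset.sum_eq_zero fun i _ => by rw [map_smul, h3, smul_zero]
    rw [h2, finrank_bot, add_zero] at h1
    exact h1
  obtain ⟨κ, j, hj, hjs, hji⟩ := exists_linearIndependent' F e
  have hfκ : Finite κ := Finite.of_injective j hj
  have := Fintype.ofFinite κ
  have hκ : Fintype.card κ = finrank F K := by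
    rw [← finrank_span_eq_card hji, hjs, hspan, finrank_top, hdual]
  -- the map from the classes in `M`
  obtain ⟨Y, hY⟩ : ∃ Y, Y = Submodule.span M (Set.range y) := ⟨_, rfl⟩
  rw [← hY]
  have hYfin : Module.Finite M Y := by
    rw [hY]
    exact Module.Finite.span_of_finite M (Set.finite_range y)
  let Ψ : (Fin ρ → M) →ₗ[M] (K → F) :=
    { toFun := fun t f => (f : Module.Dual F (Fin ρ → F)) fun s => algebraMap M F (t s)
      map_add' := fun t t' => by
        funext f
        rw [Pi.add_apply, ← map_add]
        congr 1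
        funext s
        simp
      map_smul' := fun c t => by
        funext f
        change (f : Module.Dual F (Fin ρ → F)) (fun s => algebraMap M F (c * t s)) =
          c • (f : Module.Dual F (Fin ρ → F)) fun s => algebraMap M F (t s)
        rw [Algebra.smul_def, ← smul_eq_mul, ← map_smul (f : Module.Dual F (Fin ρ → F)) (algebraMap M F c)]
        congr 1
        funext s
        rw [Pi.smul_apply, smul_eq_mul, map_mul] }
  have hΨ : ∀ t f, Ψ t f = (f : Module.Dual F (Fin ρ → F)) fun s => algebraMap M F (t s) := fun _ _ => rfl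
  let Θ : (κ → Y) →ₗ[M] (K → F) :=
    { toFun := fun z f => ∑ b, ((z b : F) / lv (l (j b)) y) * e (j b) f
      map_add' := fun z z' => by
        funext f
        simp only [Pi.add_apply, Submodule.coe_add, add_div, add_mul, Finset.sum_add_distrib]
      map_smul' := fun c z => by
        funext f
        simp only [Pi.smul_apply, Submodule.coe_smul, Algebra.smul_def, RingHom.id_apply, Finset.mul_sum]
        refine Finset.sum_congr rfl fun b _ => ?_
        ring }
  have hΘ : ∀ z f, Θ z f = ∑ b, ((z b : F) / lv (l (j b)) y) * e (j b) f := fun _ _ => rfl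
  have hinj : Function.Injective Θ := by
    rw [injective_iff_map_eq_zero]
    intro z hz
    have h1 : ∑ b, ((z b : F) / lv (l (j b)) y) • (e ∘ j) b = 0 := by
      apply LinearMap.ext
      intro f
      have h2 := congrFun hz f
      rw [hΘ] at h2
      rw [LinearMap.sum_apply]
      exact h2
    have h3 := Fintype.linearIndependent_iff.1 hji _ h1
    funext b
    apply Subtype.ext
    exact (div_eq_zero_iff.1 (h3 b)).resolve_right (hly _)
  have hsub : ∀ b (z : F) (hz : z ∈ Y), Θ (Pi.single b ⟨z, hz⟩) ∈ LinearMap.range Ψ := by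
    intro b z hz
    have key : ∀ (c : Fin (N + 1)) (hc : y c ∈ Y), Θ (Pi.single b ⟨y c, hc⟩) ∈ LinearMap.range Ψ := by
      intro c hc
      refine ⟨fun s => D₀ (j b, c) (τ s) / τ s, ?_⟩
      funext f
      rw [hΨ, hΘ, Finset.sum_eq_single b]
      · rw [Pi.single_eq_same, hei]
        have h1 : (f : Module.Dual F (Fin ρ → F)) (θ fun c' => D (j b, c) (y c')) = 0 := by
          have h2 : (f : Module.Dual F (Fin ρ → F)) ∈ W.dualAnnihilator := by
            rw [← hK]
            exact f.2
          exact (Submodule.mem_dualAnnihilator _).1 h2 _ (hDW _)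
        have h3 : (θ fun c' => D (j b, c) (y c')) = (fun s => algebraMap M F (D₀ (j b, c) (τ s) / τ s)) -
            (y c / lv (l (j b)) y) • A (j b) := by
          funext s
          rw [hθD]
          simp only [Pi.sub_apply, Pi.smul_apply, smul_eq_mul, A]
          rw [mul_comm (y c / lv (l (j b)) y)]
        rw [h3, map_sub, map_smul, sub_eq_zero] at h1
        exact h1
      · intro b' _ hb'
        rw [Pi.single_eq_of_ne hb', Submodule.coe_zero, zero_div, zero_mul]
      · intro h
        exact absurd (Finset.mem_univ _) h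
    have hgen : ∀ z ∈ Submodule.span M (Set.range y), ∀ hz : z ∈ Y, Θ (Pi.single b ⟨z, hz⟩) ∈ LinearMap.range Ψ := by
      intro z hz0
      induction hz0 using Submodule.span_induction with
      | mem z h =>
        obtain ⟨c, rfl⟩ := h
        exact key c
      | zero =>
        intro hz
        have : (⟨0, hz⟩ : Y) = 0 := rfl
        rw [this, Pi.single_zero, map_zero]
        exact Submodule.zero_mem _
      | add z z' h h' ih ih' =>
        intro hz
        have h1 : z ∈ Y := by
          rw [hY]
          exact h
        have h2 : z' ∈ Y := by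
          rw [hY]
          exact h'
        have : (⟨z + z', hz⟩ : Y) = ⟨z, h1⟩ + ⟨z', h2⟩ := rfl
        rw [this, Pi.single_add, map_add]
        exact Submodule.add_mem _ (ih h1) (ih' h2)
      | smul c z h ih =>
        intro hz
        have h1 : z ∈ Y := by
          rw [hY]
          exact h
        have : (⟨c • z, hz⟩ : Y) = c • ⟨z, h1⟩ := rfl
        rw [this, Pi.single_smul, map_smul]
        exact Submodule.smul_mem _ _ (ih h1)
    exact hgen z (by
      rw [← hY]
      exact hz) hz
  have hle : LinearMap.range Θ ≤ LinearMap.range Ψ := by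
    rintro _ ⟨z, rfl⟩
    have h1 : z = ∑ b, Pi.single b (z b) := (Finset.univ_sum_single z).symm
    rw [h1, map_sum]
    exact Submodule.sum_mem _ fun b _ => hsub b (z b) (z b).2
  have hcount : Fintype.card κ * finrank M Y ≤ ρ := by
    have h1 : finrank M (κ → Y) = Fintype.card κ * finrank M Y := by
      rw [Module.finrank_pi_fintype, Finset.sum_const, Finset.card_univ, smul_eq_mul]
    have h2 : finrank M (LinearMap.range Θ) = finrank M (κ → Y) := LinearMap.finrank_range_of_inj hinj
    have h3 : finrank M (LinearMap.range Ψ) ≤ ρ := (LinearMap.finrank_range_le Ψ).trans (by rw [Module.finrank_fin_fun])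
    have h4 : finrank M (LinearMap.range Θ) ≤ finrank M (LinearMap.range Ψ) := Submodule.finrank_mono hle
    omega
  have h5 : ρ + m ≤ Fintype.card κ + n := by omega
  calc (ρ + m) * finrank M Y ≤ (Fintype.card κ + n) * finrank M Y := Nat.mul_le_mul_right _ h5
    _ = Fintype.card κ * finrank M Y + n * finrank M Y := by ring
    _ ≤ ρ + n * finrank M Y := by omega

end Pool.Agent.CV
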